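import Pool.Agent.Helper30.UP.St

set_option autoImplicit false

noncomputable section

namespace Pool.Agent.Helper83.UP

open Finset Pool.Agent.Helper30.UP
open scoped Classical

theorem hTR : StTR := by
  intro n V hV
  -- the dual code and a basis
  set D : Submodule (ZMod 2) (Fin n → ZMod 2) := perp V with hD
  set c : ℕ := Module.finrank (ZMod 2) D with hc
  let b : Module.Basis (Fin c) (ZMod 2) D := Module.finBasis (ZMod 2) D
  let s : Fin n → E c := fun i k => (b k : Fin n → ZMod 2) i
  let φ : E c → D := fun x => ∑ k, x k • b k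
  have hφ : ∀ (x : E c) (i : Fin n), (φ x : Fin n → ZMod 2) i = x ⬝ᵥ s i := by
    intro x i
    simp only [φ, s, dotProduct, Submodule.coe_sum, Submodule.coe_smul, Finset.sum_apply,
      Pi.smul_apply, smul_eq_mul]
  have hφe : ∀ x, φ x = b.equivFun.symm x := fun x => (b.equivFun_symm_apply x).symm
  have hφinj : Function.Injective φ := by
    intro x y h
    rw [hφe, hφe] at h
    exact b.equivFun.symm.injective h
  have hφsurj : Function.Surjective φ := by
    intro d
    refine ⟨b.equivFun d, ?_⟩
    rw [hφe]
    exact b.equivFun.symm_apply_apply d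
  have hφ0 : φ 0 = 0 := by rw [hφe]; exact map_zero _
  have hwt : ∀ x, wt s x = hammingNorm (φ x : Fin n → ZMod 2) := by
    intro x
    unfold wt hammingNorm
    congr 1
    ext i
    simp only [mem_filter, mem_univ, true_and]
    rw [hφ x i]
  -- the kernel
  have hker : ∀ u : Fin n → ZMod 2, u ∈ V ↔ ∑ i, u i • s i = 0 := by
    intro u
    have h1 : u ∈ V ↔ ∀ d ∈ D, d ⬝ᵥ u = 0 := by
      rw [← mem_perp, hD, perp_perp]
    have h2 : ∀ x : E c, (φ x : Fin n → ZMod 2) ⬝ᵥ u = x ⬝ᵥ (∑ i, u i • s i) := by
      intro x
      rw [dotProduct_sum]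
      unfold dotProduct
      refine sum_congr rfl fun i _ => ?_
      rw [hφ x i]
      change (x ⬝ᵥ s i) * u i = x ⬝ᵥ (u i • s i)
      rw [dotProduct_smul, smul_eq_mul, mul_comm]
    rw [h1]
    constructor
    · intro h
      by_contra hne
      obtain ⟨x, hx⟩ := exists_dot _ hne
      have h3 := h (φ x) (φ x).2
      rw [h2 x, hx] at h3
      exact one_ne_zero h3
    · intro h d hd
      obtain ⟨x, hx⟩ := hφsurj ⟨d, hd⟩
      have h3 : (φ x : Fin n → ZMod 2) = d := by rw [hx]
      rw [← h3, h2 x, h, dotProduct_zero]
  refine ⟨c, s, ?_, ⟨?_, ?_⟩, ?_, ?_, hker⟩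
  · -- faithful
    intro x hx h0
    rw [hwt, hammingNorm_eq_zero] at h0
    apply hx
    apply hφinj
    rw [hφ0]
    exact Subtype.ext h0
  · -- injective
    intro i j hij
    by_contra hne
    set u : Fin n → ZMod 2 := Pi.single i 1 + Pi.single j 1 with hu
    have h1 : u ∈ V := by
      rw [hker]
      have h2 : ∀ k, u k • s k = (Pi.single i (1 : ZMod 2) : Fin n → ZMod 2) k • s k +
          (Pi.single j (1 : ZMod 2) : Fin n → ZMod 2) k • s k := by
        intro k
        rw [hu, Pi.add_apply, add_smul]
      rw [sum_congr rfl fun k _ => h2 k, sum_add_distrib]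
      have h3 : ∀ l : Fin n, ∑ k, (Pi.single l (1 : ZMod 2) : Fin n → ZMod 2) k • s k = s l := by
        intro l
        rw [sum_eq_single l]
        · rw [Pi.single_eq_same, one_smul]
        · intro k _ hk
          rw [Pi.single_eq_of_ne hk, zero_smul]
        · intro h
          exact absurd (mem_univ l) h
      rw [h3, h3, hij, E_add_self]
    have h2 : u ≠ 0 := by
      intro h
      have h3 := congrFun h i
      rw [hu, Pi.add_apply, Pi.single_eq_same, Pi.single_eq_of_ne hne, add_zero] at h3
      exact one_ne_zero h3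
    have h3 := hV u h1 h2
    have h4 : hammingNorm u ≤ 2 := by
      unfold hammingNorm
      refine (card_le_card (t := ({i, j} : Finset (Fin n))) ?_).trans card_le_two
      intro k hk
      rw [mem_filter] at hk
      rw [mem_insert, mem_singleton]
      by_contra hcon
      push Not at hcon
      apply hk.2
      rw [hu, Pi.add_apply, Pi.single_eq_of_ne hcon.1, Pi.single_eq_of_ne hcon.2, add_zero]
    omega
  · -- no zero column
    intro i hi
    set u : Fin n → ZMod 2 := Pi.single i 1 with hu
    have h1 : u ∈ V := by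
      rw [hker]
      apply sum_eq_zero
      intro k _
      rcases eq_or_ne k i with h | h
      · rw [h, hi, smul_zero]
      · rw [hu, Pi.single_eq_of_ne h, zero_smul]
    have h2 : u ≠ 0 := by
      intro h
      have h3 := congrFun h i
      rw [hu, Pi.single_eq_same] at h3
      exact one_ne_zero h3
    have h3 := hV u h1 h2
    have h4 : hammingNorm u ≤ 1 := by
      unfold hammingNorm
      refine (card_le_card (t := ({i} : Finset (Fin n))) ?_).trans (card_singleton i).le
      intro k hk
      rw [mem_filter] at hk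
      rw [mem_singleton]
      by_contra hcon
      apply hk.2
      rw [hu, Pi.single_eq_of_ne hcon]
    omega
  · -- cardinality
    have h1 := card_perp V
    have h2 : Nat.card D = 2 ^ c := by
      have h3 : Nat.card D = Nat.card (E c) := Nat.card_congr b.equivFun.toEquiv
      rw [h3, Nat.card_eq_fintype_card, card_E]
    rw [← h2, hD]
    exact h1
  · -- weights
    ext w
    unfold Om dw
    simp only [mem_image, mem_filter, mem_univ, true_and]
    constructor
    · rintro ⟨x, hx, rfl⟩
      refine ⟨(φ x : Fin n → ZMod 2), ⟨?_, ?_⟩, (hwt x).symm⟩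
      · intro h
        apply hx
        apply hφinj
        rw [hφ0]
        exact Subtype.ext h
      · intro v hv
        exact (φ x).2 v hv
    · rintro ⟨u, ⟨hu0, hu⟩, rfl⟩
      obtain ⟨x, hx⟩ := hφsurj ⟨u, hu⟩
      have h3 : (φ x : Fin n → ZMod 2) = u := by rw [hx]
      refine ⟨x, ?_, ?_⟩
      · intro h
        apply hu0
        rw [← h3, h, hφ0]
        rfl
      · rw [hwt, h3]

end Pool.Agent.Helper83.UP
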